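import Pool.Agent.Helper1.RK.StA

/-!
# Project RK, module ODD: at least four points of odd order
-/

set_option autoImplicit false

namespace Pool.Agent.Helper37.RK

open Polynomial Pool.Agent.Helper1.RK

private theorem x2_ne {L : Type} [Field L] (e : L) : (RatFunc.X : RatFunc L) ^ 2 ≠ RatFunc.C e := by
  intro h
  have h1 : algebraMap L[X] (RatFunc L) (X ^ 2) = algebraMap L[X] (RatFunc L) (C e) := by
    rw [map_pow, RatFunc.algebraMap_X, RatFunc.algebraMap_C]
    exact h
  have h2 := RatFunc.algebraMap_injective L h1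
  have h3 := congrArg natDegree h2
  rw [natDegree_X_pow, natDegree_C] at h3
  omega

private theorem cst_ne {L : Type} [Field L] {U : RatFunc L} (hU : ¬ Cst U) (c : L) :
    U ≠ RatFunc.C c := fun h => hU ⟨c, h⟩

theorem pODD (h1 : StORD) (_h2 : StREG) (h3 : StFIN) (h4 : StIOT) (h5 : StSQR) (h6 : StCON)
    (_h7 : StCMP) : StODD := by
  intro L _ _ _ ι hι l U hl0 hl1 hU hev τ
  classical
  obtain ⟨-, -, -, hsub, -, hcst⟩ := h4 L
  have hU0 : U ≠ 0 := by
    have := cst_ne hU 0
    rwa [map_zero] at this
  have hU1 : U - 1 ≠ 0 := by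
    have := cst_ne hU 1
    rw [map_one] at this
    exact sub_ne_zero.2 this
  have hUl : U - RatFunc.C l ≠ 0 := sub_ne_zero.2 (cst_ne hU l)
  have hg : leg l U ≠ 0 := mul_ne_zero (mul_ne_zero hU0 hU1) hUl
  have hιg : ι (leg l U) = leg l (ι U) := by
    have hC : ι (RatFunc.C l) = RatFunc.C l := (hcst ι.toAlgHom).1 l
    unfold leg
    rw [map_mul, map_mul, map_sub, map_sub, map_one, hC]
  obtain ⟨B, hB⟩ : ∃ B : Finset L, ∀ p, p ∈ B ↔ Odd (ord p (leg l U)) := by
    have hf := (h3 L).2.2 (leg l U)
    refine ⟨hf.toFinset.filter fun p => Odd (ord p (leg l U)), ?_⟩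
    intro p
    rw [Finset.mem_filter, Set.Finite.mem_toFinset, Set.mem_ofPred_eq]
    constructor
    · exact fun h => h.2
    · intro h
      refine ⟨?_, h⟩
      intro h0
      rw [h0] at h
      exact absurd h (by decide)
  have hcard : Even B.card := (h5 L ι hι (leg l U) hg).2 (by rw [hιg]; exact hev) B hB
  have hc0 : B.card ≠ 0 := by
    intro h0
    rw [Finset.card_eq_zero] at h0
    have hall : ∀ p, Even (ord p (leg l U)) := by
      intro p
      have : p ∉ B := by rw [h0]; exact Finset.notMem_empty p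
      rw [hB, Int.not_odd_iff_even] at this
      exact this
    exact hU (h6 L l U hl0 hl1 ((h5 L ι hι (leg l U) hg).1 hall) hg)
  have hc2 : B.card ≠ 2 := by
    intro h2
    obtain ⟨a, b, hab, hBab⟩ := Finset.card_eq_two.1 h2
    have hsd : (1 : RatFunc L) - RatFunc.X ^ 2 ≠ 0 := by
      intro h
      apply x2_ne (1 : L)
      rw [map_one]
      linear_combination -h
    obtain ⟨s, hs⟩ : ∃ s : RatFunc L, s = (RatFunc.C a - RatFunc.C b * RatFunc.X ^ 2) /
      (1 - RatFunc.X ^ 2) := ⟨_, rfl⟩
    have hsc : ¬ Cst s := by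
      rintro ⟨c, hc⟩
      rw [hs, div_eq_iff hsd] at hc
      have hc' : (RatFunc.C (b - c) : RatFunc L) * RatFunc.X ^ 2 = RatFunc.C (a - c) := by
        rw [map_sub, map_sub]
        linear_combination -hc
      by_cases hbc : b - c = 0
      · rw [hbc, map_zero, zero_mul] at hc'
        have h8 : a - c = 0 := by
          by_contra h9
          exact (map_ne_zero (RatFunc.C : L →+* RatFunc L)).2 h9 hc'.symm
        exact hab (by linear_combination h8 - hbc)
      · apply x2_ne ((a - c) / (b - c))
        rw [map_div₀, eq_div_iff ((map_ne_zero (RatFunc.C : L →+* RatFunc L)).2 hbc), ← hc']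
        ring
    obtain ⟨φ, hφ⟩ := hsub s hsc
    have hφC := (hcst φ).1
    have hinj : Function.Injective φ := φ.toRingHom.injective
    have hXa : ∀ c : L, (RatFunc.X - RatFunc.C c : RatFunc L) ≠ 0 := by
      intro c h
      apply x2_ne (c ^ 2)
      rw [sub_eq_zero.1 h, map_pow]
    obtain ⟨g', hg'⟩ : ∃ g' : RatFunc L, g' = leg l U /
      ((RatFunc.X - RatFunc.C a) * (RatFunc.X - RatFunc.C b)) := ⟨_, rfl⟩
    have hg'0 : g' ≠ 0 := by
      rw [hg']
      exact div_ne_zero hg (mul_ne_zero (hXa a) (hXa b))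
    have hfac : leg l U = (RatFunc.X - RatFunc.C a) * ((RatFunc.X - RatFunc.C b) * g') := by
      have e1 := hXa a
      have e2 := hXa b
      rw [hg']
      field_simp
    have hall : ∀ p, Even (ord p g') := by
      intro p
      obtain ⟨-, om, -, -, -, -, -, -, oself, oother⟩ := h1 L p
      have e1 : ord p (leg l U) = ord p (RatFunc.X - RatFunc.C a) +
          (ord p (RatFunc.X - RatFunc.C b) + ord p g') := by
        rw [hfac, om _ _ (hXa a) (mul_ne_zero (hXa b) hg'0), om _ _ (hXa b) hg'0]
      have hp : p ∈ B ↔ Odd (ord p (leg l U)) := hB p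
      rw [hBab, Finset.mem_insert, Finset.mem_singleton] at hp
      by_cases hpa : p = a
      · have h8 := hp.1 (Or.inl hpa)
        rw [e1] at h8
        have h9 : ord p (RatFunc.X - RatFunc.C a) = 1 := by rw [← hpa]; exact oself
        have h10 : ord p (RatFunc.X - RatFunc.C b) = 0 := by
          apply oother
          intro h
          exact hab (hpa.symm.trans h.symm)
        rw [h9, h10] at h8
        rcases h8 with ⟨k, hk⟩
        exact ⟨k, by omega⟩
      · by_cases hpb : p = b
        · have h8 := hp.1 (Or.inr hpb)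
          rw [e1] at h8
          have h9 : ord p (RatFunc.X - RatFunc.C b) = 1 := by rw [← hpb]; exact oself
          have h10 : ord p (RatFunc.X - RatFunc.C a) = 0 := oother a fun h => hpa h.symm
          rw [h9, h10] at h8
          rcases h8 with ⟨k, hk⟩
          exact ⟨k, by omega⟩
        · have h8 : ¬ Odd (ord p (leg l U)) := by
            intro h
            rcases hp.2 h with h | h
            · exact hpa h
            · exact hpb h
          rw [Int.not_odd_iff_even, e1, oother a fun h => hpa h.symm,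
            oother b fun h => hpb h.symm, zero_add, zero_add] at h8
          exact h8
    obtain ⟨w, hw⟩ := (h5 L ι hι g' hg'0).1 hall
    have e1 : φ (RatFunc.X - RatFunc.C a) =
        (RatFunc.C a - RatFunc.C b) * RatFunc.X ^ 2 / (1 - RatFunc.X ^ 2) := by
      rw [map_sub, hφ, hφC, hs, eq_div_iff hsd, sub_mul, div_mul_cancel₀ _ hsd]
      ring
    have e2 : φ (RatFunc.X - RatFunc.C b) =
        (RatFunc.C a - RatFunc.C b) / (1 - RatFunc.X ^ 2) := by
      rw [map_sub, hφ, hφC, hs, eq_div_iff hsd, sub_mul, div_mul_cancel₀ _ hsd]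
      ring
    have e3 : leg l (φ U) = φ (leg l U) := by
      unfold leg
      rw [map_mul, map_mul, map_sub, map_sub, map_one, hφC]
    have e4 : IsSquare (leg l (φ U)) := by
      refine ⟨(RatFunc.C a - RatFunc.C b) * RatFunc.X / (1 - RatFunc.X ^ 2) * φ w, ?_⟩
      rw [e3, hfac, map_mul, map_mul, e1, e2, hw, map_mul]
      field_simp
    have e5 : leg l (φ U) ≠ 0 := by
      rw [e3]
      intro h
      apply hg
      apply hinj
      rw [h, map_zero]
    exact hU (((hcst φ).2 U).1 (h6 L l (φ U) hl0 hl1 e4 e5))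
  have hc4 : 4 ≤ B.card := by
    rcases hcard with ⟨k, hk⟩
    omega
  have hc3 : 2 < (B.erase τ).card := by
    have := Finset.pred_card_le_card_erase (s := B) (a := τ)
    omega
  obtain ⟨a, ha, b, hb, c, hc, hab, hac, hbc⟩ := Finset.two_lt_card.1 hc3
  rw [Finset.mem_erase] at ha hb hc
  exact ⟨a, b, c, hab, hac, hbc, ha.1, hb.1, hc.1, (hB a).1 ha.2, (hB b).1 hb.2, (hB c).1 hc.2⟩

end Pool.Agent.Helper37.RK
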